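import Pool.Agent.Run7.h905.DK.Dw

/-!
# Almost all curves in Dickson pencils over number fields: rank equal to the genus, and the conjecture

Let `n = 2 g + 1 ≥ 3` be odd, `k` a number field containing `c = ζ + ζ⁻¹`, `ζ` a primitive `n`-th root of
unity (for `n = 3` this is no condition, `c = -1`), `δ` in `k` not zero, and `D_n(x) = D_n(x, δ)` the Dickson
polynomial, `D_n(u + δ / u) = u ^ n + (δ / u) ^ n`. For `b` in `k[t]` let `Q = D_n(b) - t` and let `A` be the
Jacobian, of dimension `g`, of the hyperelliptic curve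

  `C_b : Q y ^ 2 = D_n(x) - t`

over `K = k(t)`. There are the point `(b, 1)` and the divisors `h_j(x) = 0, y = 1` of degree two,
`h_j = x ^ 2 - c_j b x + b ^ 2 + δ (c_j ^ 2 - 4)`, `c_j = ζ ^ j + ζ ^ (-j)`, `1 ≤ j ≤ g`. For `n = 3` this is
`Q y ^ 2 = x ^ 3 + α x - t`, `Q = b ^ 3 + α b - t`, `α = - 3 δ` any non-zero element of `k`, with the point
`(b, 1)`.

Theorem. Let `m ≥ 1`. For 100 percent of the `b = x_0 + x_1 t + … + x_m t ^ m` with integral
coefficients (ordered by the coordinates with respect to any integral basis) `b` has degree `m` and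

(a) over ALL the fields `K' = k'(t)`, `k'` an arbitrary extension field of `k` in which the elements algebraic
over `k` have degree prime to `2 n m` over `k` (for example `k' = k(s_1, …, s_r)`, and all finite
extensions of degree prime to `2 n m` of these): `A(K')` has no element of order two, `A(K') / 2 A(K')`
has `2 ^ g` elements and is generated by the classes of the `g + 1` divisors, the only relation being that
the sum of all is zero, the rank of `A(K')` is exactly `g`, and the 2-primary part of the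
Tate-Shafarevich group of `A` over `K'` is zero; so the map `A(K') ⊗ ℤ_2 → Sel(A, ℤ_2)` is an isomorphism;

(b) there is a prime of degree one of `k`, of a characteristic `p` not dividing `2 n`, with `c` and `δ` integral
and `δ` a unit there, such that all this is true for the reduction of `b` (of degree `m` too) over `F_p` and all
the perfect fields `k'` containing `F_p` in which the algebraic elements have degree prime to `2 n m`.

Consequence of (b) (not formalised): `T_ℓ Sha(A) = 0` over `k(t)` for ALL primes `ℓ`, which is Q1 for `A`.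
At the prime of (b) the divisor `Q (t ^ 2 - 4 δ ^ n) = 0` remains étale and the fibration is tame at infinity, so
`dim H ^ 1(P ^ 1, j_* R ^ 1 π_* ℚ_ℓ(1)) ^ (G_k)` is at most the corresponding dimension over `F_p`, which is the
rank of `A(F_p(t))`, i.e. `g`, by Artin, Tate and Milne, as Sha[2^∞] is finite; and the rank of `A(k(t))` is `g`;
so the Tate conjecture for divisors holds for the surface and all `ℓ`, and `V_ℓ Sel(A) = A(K) ⊗ ℚ_ℓ` follows.

Proof. The descent by the divisors on the affine line `D_n(x) = t` (`MP_60d5ce_nt.TwistsByPrimes`,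
`MP_72e2e6_nt.DicksonPencils`), here without the roots of unity themselves. It needs that `Q` is
irreducible and `(c_j ^ 2 - 4) (b ^ 2 - 4 δ)` is not a square modulo `Q`. This can be seen modulo a prime of
degree one of `k(ζ_{n m})`, where it is true for a positive proportion of the residue classes by the
theorem of Chebotarev type for the pencils over finite fields; the large sieve (density principle) gives
100 percent. Both properties remain true over `k'`: the factors of `Q`, and of the minimal polynomial of a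
primitive element of the quadratic extension, over `k'` have coefficients algebraic over `k`.
-/

set_option autoImplicit false
set_option linter.all false

open Polynomial NumberField
open scoped Classical

namespace Pool.Agent.Results.MP_1bdb59_nt.AlmostAllDicksonPencils

open Pool.Agent.Y713.Jac (J CoordRing)
open Pool.Agent.N352.Sha (ShaTrivial)
open Pool.Agent.Results.MP_60d5ce_nt.TwistsByPrimes (IsClass)

section defs

/-- `c = ζ + ζ⁻¹` for a primitive `n`-th root of unity `ζ` of an extension of `k` (`n` not zero in `k`):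
`x ^ 2 - c x + 1` divides the `n`-th cyclotomic polynomial. -/
def IsCos {k : Type} [Field k] (n : ℕ) (c : k) : Prop := X ^ 2 - C c * X + 1 ∣ cyclotomic n k

/-- The polynomial `Q = D_n(b, δ) - t`. -/
noncomputable def Q {k : Type} [Field k] (n : ℕ) (δ : k) (b : k[X]) : k[X] :=
  (dickson 1 δ n).comp b - X

/-- The polynomial `h = x ^ 2 - a b x + b ^ 2 + δ (a ^ 2 - 4)`. -/
noncomputable def quadratic {k : Type} [Field k] (a δ : k) (b : k[X]) : k[X][X] :=
  X ^ 2 - C (C a * b) * X + C (b ^ 2 + C (δ * (a ^ 2 - 4)))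

/-- The factors `h_0 = x - b` and `h_j = x ^ 2 - c_j b x + b ^ 2 + δ (c_j ^ 2 - 4)`,
`c_j = ζ ^ j + ζ ^ (-j) = D_j(c, 1)`, `c = ζ + ζ⁻¹`, `1 ≤ j ≤ g`. -/
noncomputable def factors {k : Type} [Field k] (g : ℕ) (c δ : k) (b : k[X]) : Fin (g + 1) → k[X][X] :=
  Fin.cons (X - C b) fun j : Fin g => quadratic ((dickson 1 (1 : k) ((j : ℕ) + 1)).eval c) δ b

variable {k : Type} (K : Type) [Field k] [Field K] [Algebra k[X] K]

/-- The monic polynomial over `K` whose zeros are those of `h` multiplied by `Q`. -/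
noncomputable def scale (Q : k[X]) (h : k[X][X]) : K[X] :=
  (h.map (algebraMap k[X] K)).scaleRoots (algebraMap k[X] K Q)

/-- The polynomial `F` such that `C_b : Q y ^ 2 = D_n(x) - t` is isomorphic to `Y ^ 2 = F(X)` by `X = Q x`,
`Y = Q ^ ((n + 1) / 2) y`. -/
noncomputable def model (n : ℕ) (δ : k) (b : k[X]) : K[X] :=
  scale K (Q n δ b) ((dickson 1 δ n).map C - C X)

/-- The Jacobian `J` of `y ^ 2 = F(x)` over `K` has no `K`-rational point of order two, the group
`J(K) / 2 J(K)` has `2 ^ r` elements, and the rank of `J(K)` is `r` if `J(K)` is finitely generated. -/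
structure RankIs {K : Type} [Field K] (F : K[X]) (r : ℕ) : Prop where
  torsion : ∀ P : J 2 F K, P ^ 2 = 1 → P = 1
  index : (powMonoidHom 2 : J 2 F K →* J 2 F K).range.index = 2 ^ r
  rank : Group.FG (J 2 F K) → Module.finrank ℤ (Additive (J 2 F K)) = r

/-- The product of the `P_j`, `j ∈ S`, is a square only for the empty set and for the set of all
indices. -/
def OnlyRelation {G : Type} [CommGroup G] {m : ℕ} (P : Fin m → G) : Prop :=
  ∀ S : Finset (Fin m), (∃ R, ∏ j ∈ S, P j = R ^ 2) ↔ S = ∅ ∨ S = Finset.univ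

/-- The `P_j` generate the group modulo squares. -/
def GenerateModSquares {G : Type} [CommGroup G] {m : ℕ} (P : Fin m → G) : Prop :=
  ∀ x, ∃ (S : Finset (Fin m)) (R : G), x = (∏ j ∈ S, P j) * R ^ 2

/-- The classes `P_j` of the divisors `p_j(x) = 0, y = c(x)` generate `J(K)` modulo `2 J(K)`, `J` the
Jacobian of `y ^ 2 = F(x)`, and the only relation is that the sum of all of them is zero. -/
def HasBasis {K : Type} [Field K] (F c : K[X]) {m : ℕ} (p : Fin m → K[X]) : Prop :=
  ∃ P : Fin m → J 2 F K, (∀ j, IsClass F (p j) c (P j)) ∧ GenerateModSquares P ∧ OnlyRelation P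

/-- The classes in `A(K)`, `A` the Jacobian of `C_b`, of the divisors `h_j(x) = 0, y = 1`, i.e.
`Y = Q ^ (g + 1)`, generate `A(K)` modulo `2 A(K)`, and the only relation is that the sum of all of them is
zero. -/
def Basis (g : ℕ) (c δ : k) (b : k[X]) : Prop :=
  HasBasis (model K (2 * g + 1) δ b) (C (algebraMap k[X] K (Q (2 * g + 1) δ b) ^ (g + 1)))
    fun j => scale K (Q (2 * g + 1) δ b) (factors g c δ b j)

/-- For the Jacobian `A` of `C_b`, `n = 2 g + 1`: `Q` is irreducible, `A(K)` has no element of order two,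
`A(K) / 2 A(K)` has `2 ^ g` elements, the rank is `g` if `A(K)` is finitely generated, the classes of the
divisors `h_j(x) = 0, y = 1` generate `A(K) / 2 A(K)`, the only relation is that
the sum of all of them is zero, and the 2-primary part of the Tate-Shafarevich group is zero: every
continuous cocycle of the absolute Galois group of `K` with values in `A(K^sep)` whose class is of 2-power
order and zero over the completions of `K` at all the places except possibly `t = ∞` is a coboundary. -/
structure Good [IsFractionRing k[X] K] (g : ℕ) (c δ : k) (b : k[X]) : Prop where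
  prime : Irreducible (Q (2 * g + 1) δ b)
  rank : RankIs (model K (2 * g + 1) δ b) g
  basis : Basis K g c δ b
  sha : ShaTrivial 2 (model K (2 * g + 1) δ b) k[X]

/-- Every element of `k'` that is algebraic over `k` has degree prime to `N` over `k`. -/
def Tame (N : ℕ) (k k' : Type) [Field k] [Field k'] [Algebra k k'] : Prop :=
  ∀ x : k', IsIntegral k x → Nat.Coprime N (minpoly k x).natDegree

/-- `b` is of degree `m` and `Good` over the fields `k'(t)` for all the perfect extension fields `k'` of `k` in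
which the elements algebraic over `k` have degree prime to `2 n m`, `n = 2 g + 1`. -/
def GoodOverAll (g m : ℕ) (c δ : k) (b : k[X]) : Prop :=
  b.natDegree = m ∧ ∀ (k' K' : Type) [Field k'] [PerfectField k'] [Algebra k k'] [Field K']
    [Algebra k'[X] K'] [IsFractionRing k'[X] K'], Tame (2 * ((2 * g + 1) * m)) k k' →
    Good K' g (algebraMap k k' c) (algebraMap k k' δ) (b.map (algebraMap k k'))

/-- `x` in the number field `k` is integral at the kernel of `φ`, and `y` is its residue. -/
def Reduces {F : Type} [Field F] (φ : 𝓞 k →+* F) (x : k) (y : F) : Prop :=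
  ∃ a s : 𝓞 k, φ s ≠ 0 ∧ x * algebraMap (𝓞 k) k s = algebraMap (𝓞 k) k a ∧ φ a = y * φ s

/-- The polynomial `φ(x_0) + φ(x_1) t + … + φ(x_m) t ^ m`. -/
noncomputable def poly {F : Type} [Field F] (φ : 𝓞 k →+* F) {m : ℕ} (x : Fin (m + 1) → 𝓞 k) : F[X] :=
  ∑ i, C (φ (x i)) * X ^ (i : ℕ)

/-- `b = x_0 + x_1 t + … + x_m t ^ m` is `GoodOverAll`, and so is its reduction at some prime of degree one. -/
structure Works (g m : ℕ) (c δ : k) (x : Fin (m + 1) → 𝓞 k) : Prop where
  good : GoodOverAll g m c δ (poly (algebraMap (𝓞 k) k) x)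
  reduction : ∃ (p : ℕ) (_ : Fact p.Prime) (φ : 𝓞 k →+* ZMod p) (c' δ' : ZMod p), (2 : ZMod p) ≠ 0 ∧
    ((2 * g + 1 : ℕ) : ZMod p) ≠ 0 ∧ Reduces φ c c' ∧ Reduces φ δ δ' ∧ δ' ≠ 0 ∧
    GoodOverAll g m c' δ' (poly φ x)

/-- The vectors `x` of `m + 1` integers of `k`, with coordinates of absolute value at most `H` with respect
to the integral basis `B`, which do not `Work`. -/
def Exceptions {I : Type} (B : Module.Basis I ℤ (𝓞 k)) (g m : ℕ) (c δ : k) (H : ℕ) :
    Set (Fin (m + 1) → 𝓞 k) :=
  {x | (∀ i j, |B.repr (x i) j| ≤ (H : ℤ)) ∧ ¬ Works g m c δ x}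

end defs

open Run7.h905.DK Run7.h905.BS

theorem good_of {k : Type} (K : Type) [Field k] [PerfectField k] [Field K] [Algebra k[X] K]
    [IsFractionRing k[X] K] {g : ℕ} {c δ : k} {b : k[X]} (h2 : (2 : k) ≠ 0)
    (hn : ((2 * g + 1 : ℕ) : k) ≠ 0) (hg : 1 ≤ g)
    (hc : IsCos (2 * g + 1) c) (hδ : δ ≠ 0) (hb : 1 ≤ b.natDegree)
    (hQ : Irreducible (Q (2 * g + 1) δ b))
    (hns : ∀ j : Fin g, ∀ w : k[X], ¬ Q (2 * g + 1) δ b ∣
      C (cc c (j + 1) ^ 2 - 4) * (b ^ 2 - C (4 * δ)) - w ^ 2) : Good K g c δ b := by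
  obtain ⟨⟨P, h1, h3, h4⟩, h5, h6⟩ := critC K h2 hn hg hc hδ hb hQ hns
  refine ⟨hQ, ⟨h5.torsion, h5.index, h5.rank⟩, ⟨P, ?_, ?_, ?_⟩, h6⟩
  · intro j
    obtain ⟨hD, hne, hcl⟩ := h1 j
    have ec : C (algebraMap k[X] K (QD δ (2 * g + 1) b) ^
        (((fa (D δ (2 * g + 1))).natDegree + 1) / 2)) * (((1 : k[X][X])).map (algebraMap k[X] K)).comp
          (C (algebraMap k[X] K (QD δ (2 * g + 1) b))⁻¹ * X) =
        C (algebraMap k[X] K (Q (2 * g + 1) δ b) ^ (g + 1)) := by
      rw [Polynomial.map_one, one_comp, mul_one, fa_deg (by rw [D_deg δ (by omega)]; omega),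
        D_deg δ (by omega)]
      have e1 : (2 * g + 1 + 1) / 2 = g + 1 := by omega
      rw [e1]
      rfl
    have h7 : IsClass (model K (2 * g + 1) δ b) (scale K (Q (2 * g + 1) δ b) (factors g c δ b j))
        (C (algebraMap k[X] K (QD δ (2 * g + 1) b) ^
          (((fa (D δ (2 * g + 1))).natDegree + 1) / 2)) * (((1 : k[X][X])).map (algebraMap k[X] K)).comp
            (C (algebraMap k[X] K (QD δ (2 * g + 1) b))⁻¹ * X)) (P j) := ⟨hD, hne, hcl⟩
    rw [ec] at h7
    exact h7
  · intro x
    obtain ⟨S, -, R, hR⟩ := h4 x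
    exact ⟨S, R, hR⟩
  · intro S
    exact h3 S (Finset.subset_univ S)

theorem goodOverAll_of {k : Type} [Field k] [PerfectField k] {g m : ℕ} {c δ : k} {b : k[X]}
    (h2 : (2 : k) ≠ 0) (hn : ((2 * g + 1 : ℕ) : k) ≠ 0) (hg : 1 ≤ g) (hm : 1 ≤ m)
    (hc : IsCos (2 * g + 1) c) (hδ : δ ≠ 0) (h : NiceC g m c δ b) : GoodOverAll g m c δ b := by
  refine ⟨h.deg, ?_⟩
  intro k' K' _ _ _ _ _ _ ht
  obtain ⟨h5, h6⟩ := niceC_ext hg hm h k' ht
  refine good_of K' ?_ ?_ hg (cos_map _ hc) ((_root_.map_ne_zero (algebraMap k k')).2 hδ) ?_ h5 h6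
  · rw [← map_ofNat (algebraMap k k') 2]
    exact (_root_.map_ne_zero (algebraMap k k')).2 h2
  · rw [← map_natCast (algebraMap k k')]
    exact (_root_.map_ne_zero (algebraMap k k')).2 hn
  · rw [natDegree_map, h.deg]
    exact hm

theorem works_of {k : Type} [Field k] [NumberField k] {g m : ℕ} (hg : 1 ≤ g) (hm : 1 ≤ m) {c δ : k}
    (hc : IsCos (2 * g + 1) c) (hδ : δ ≠ 0) {x : Fin (m + 1) → 𝓞 k}
    (h : NiceC g m c δ ((Pool.Agent.R431.SG.pol x).map (algebraMap (𝓞 k) k)) ∧ NiceP g m c δ x) :
    Works g m c δ x := by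
  have h4 : (Pool.Agent.R431.SG.pol x).map (algebraMap (𝓞 k) k) = poly (algebraMap (𝓞 k) k) x := by
    rw [Pool.Agent.R431.SG.pol_map]
    rfl
  rw [h4] at h
  refine ⟨?_, ?_⟩
  · refine goodOverAll_of two_ne_zero ?_ hg hm hc hδ h.1
    rw [Nat.cast_ne_zero]
    omega
  · obtain ⟨p, hp, φ, c', δ', h1, h2, h3, h4, h5, h6, h7⟩ := h.2
    exact ⟨p, hp, φ, c', δ', h1, h2, h3, h4, h5, goodOverAll_of h1 h2 hg hm h6 h5 h7⟩

theorem result :
    -- for `n = 3` every field is allowed
    (∀ (k : Type) [Field k], IsCos 3 (-1 : k)) ∧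
    -- the number of the exceptions
    (∀ (k : Type) [Field k] [NumberField k] (I : Type) [Fintype I] (B : Module.Basis I ℤ (𝓞 k))
      (g m : ℕ), 1 ≤ g → 1 ≤ m → ∀ c δ : k, IsCos (2 * g + 1) c → δ ≠ 0 → ∀ η : ℝ, 0 < η →
      ∃ H₀ : ℕ, ∀ H : ℕ, H₀ ≤ H → ((Exceptions B g m c δ H).ncard : ℝ) ≤
        η * (2 * H + 1) ^ ((m + 1) * Fintype.card I)) := by
  refine ⟨?_, ?_⟩
  · intro k _
    unfold IsCos
    rw [cyclotomic_three]
    refine dvd_of_eq ?_
    rw [C_neg, C_1]
    ring
  · intro k _ _ I _ B g m hg hm c δ hc hδ η hη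
    obtain ⟨H0, hH0⟩ := almostP B g m hg hm hc hδ hη
    refine ⟨H0, fun H hH => le_trans ?_ (hH0 H hH)⟩
    refine Nat.cast_le.2 (Set.ncard_le_ncard ?_ ?_)
    · rintro x ⟨h1, h2⟩
      exact ⟨h1, fun h3 => h2 (works_of hg hm hc hδ h3)⟩
    · have h1 : (Set.pi Set.univ fun _ : Fin (m + 1) × I => Set.Icc (-(H : ℤ)) H).Finite :=
        Set.Finite.pi fun _ => Set.finite_Icc _ _
      let ψ : (Fin (m + 1) → 𝓞 k) → (Fin (m + 1) × I → ℤ) := fun c q => B.repr (c q.1) q.2
      have hψ : Function.Injective ψ := by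
        intro c d hcd
        funext i
        apply B.repr.injective
        ext j
        exact congrFun hcd (i, j)
      refine (h1.preimage hψ.injOn).subset ?_
      rintro c ⟨hc, -⟩ q _
      exact abs_le.1 (hc q.1 q.2)

end Pool.Agent.Results.MP_1bdb59_nt.AlmostAllDicksonPencils
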