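import Mathlib
import Pool.Agent.Run7.h795.RV.SelMain
import Pool.Agent.Run7.h823.WF.Ex

/-!
# Superelliptic curves along sparse families of vectors of residues, for instance the first `m ^ ε` terms of linear
# recurrences modulo `m`

The starting result `AlmostAllCurves` shows, for a number field `k` which contains the `ℓ`-th roots of unity, that the
Tate-Shafarevich groups over `k(t)` have no `ℓ`-torsion for 100 percent of the curves
`y ^ ℓ = g_0(t) (x - g_1(t)) ... (x - g_N(t))`, when the coefficients of the `g_i` run through a box.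

Let the coordinates of the coefficients (with respect to an integral basis `B` of `k`) be the entries of an integral vector
`v`. For all `β`, `ε > 0` there is `q₀` such that for all `q ≥ q₀` and all finite families `y_i`, `i ∈ t`, of vectors of residues
modulo `q` with Fourier coefficients at most `q ^ (-β) |t|` (`Flat`) the following holds for all but `ε |t|` of the integral
vectors `v = c₀ + y_i` (least residues, `c₀` any integral vector). The Selmer group conjecture at `ℓ` over `k(t)` is true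

1. for the curve `y ^ ℓ = g_0(t) (x - g_1(t)) ... (x - g_N(t))` (`N` prime to `ℓ`, degrees `n ≥ 4`),
2. for ALL the twists `y ^ ℓ = δ (x - g_0(t)) ... (x - g_N(t))` by constants `δ ≠ 0` in `k` (`N ≥ 2`, `N + 1` prime to `ℓ`, `n ≥ 4`),
3. for the twist `y ^ ℓ = D(t) G(x)` of a fixed curve over `k(t)` with split separable `G` of degree prime to `ℓ` by the polynomial
   `D` of degree `n ≥ 2` with the coefficients `v` (`n ≥ 3` if `ℓ = 2`).

The families can be very sparse. Examples, with `β = β(ε, …) > 0`: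

* the values of linear recurrences modulo a prime `m` with linearly independent vectors of coefficients at the `n < N`, as soon
  as `N ≥ m ^ ε` and the roots and their quotients have orders `≥ m ^ ε`;
* the vectors `(x_j b_j ^ n)_j`, `n < N`, `N ≥ m ^ ε`, for fixed different integers `b_j ≥ 2` and all `x_j ≠ 0`, modulo all but
  `C X ^ ε` of the primes `m ≤ X`.

In these examples only `m ^ ε` vectors of the box occur. In the starting files `ThinCurves`, `ThinTwists` the vectors are the
integer parts of generalised polynomials.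

The definitions of the Jacobian, of its Galois cohomology over `k(t)` and of the groups of locally trivial classes are in
`Pool.Agent.Y713.SE.Stm` of the starting library.

Proof. The local criteria of `Pool.Agent.R431.SG` (starting library): finitely many obstructions, each of them is found
modulo a prime of degree one for a positive proportion of the residues of the coefficients. Families with small Fourier
coefficients are well distributed modulo all integers up to a power of `q` (the transfer of helper823,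
`Pool.Agent.Run7.h823.WF`; the Fourier coefficients of short recurrences are estimated by the method of Bourgain, Glibichuk and
Konyagin), and Turan's sieve applies.
-/

set_option autoImplicit false
set_option linter.all false

open Polynomial NumberField

namespace Pool.Agent.Results.MP_1bdb59_nt.ResidueVectors

/-- The Fourier coefficients of the vectors of residues `y i`, `i ∈ s`, modulo `q` at the nonzero frequencies are at most
`η` times the number of the vectors: `|∑ i ∈ s, e(h·y_i / q)| ≤ η |s|` for all vectors `h ≠ 0` modulo `q`. -/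
def Flat {τ ι : Type} [Fintype ι] (q : ℕ) [NeZero q] (η : ℝ) (s : Finset τ) (y : τ → ι → ZMod q) : Prop :=
  ∀ h : ι → ZMod q, h ≠ 0 → ‖∑ i ∈ s, (ZMod.stdAddChar (∑ j, h j * y i j) : ℂ)‖ ≤ η * s.card

/-- The property `Q` of integral vectors is rare: for all `ε > 0` and `q ≥ q₀(ε)` it holds for at most `ε |s|` of the members
`v = c₀ + y_i` (least residues `0 ≤ y_i < q`) of all finite families of vectors of residues modulo `q` with Fourier
coefficients at most `q ^ (-β) |s|`. -/
def Rare {ι : Type} [Fintype ι] (β : ℝ) (Q : (ι → ℤ) → Prop) : Prop :=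
  ∀ ε : ℝ, 0 < ε → ∃ q₀ : ℕ, ∀ (τ : Type) (q : ℕ) [NeZero q], q₀ ≤ q → ∀ (s : Finset τ) (y : τ → ι → ZMod q)
    (c₀ : ι → ℤ), Flat q ((q : ℝ) ^ (-β)) s y →
    ({i : τ | i ∈ s ∧ Q (fun j => c₀ j + ((y i j).val : ℕ))}.ncard : ℝ) ≤ ε * s.card

section

variable {k : Type} [Field k] [NumberField k] {r : ℕ} (B : Module.Basis (Fin r) ℤ (𝓞 k))

/-- The polynomial `c 0 + c 1 t + ... + c n t ^ n` over `k`, where `c j` is the algebraic integer with
the coordinates `v (j, b)` with respect to the integral basis `B`. -/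
noncomputable def poly {n : ℕ} (v : Fin (n + 1) × Fin r → ℤ) : k[X] :=
  ∑ j : Fin (n + 1), C (algebraMap (𝓞 k) k (∑ b, v (j, b) • B b)) * X ^ (j : ℕ)

/-- The polynomial `g 0 (t) (x - g 1 (t)) ... (x - g N (t))` in `x` over `k(t)`, where the coordinates
of the coefficients of `g i` are the `v ((i, j), b)`. -/
noncomputable def curve {N n : ℕ} (v : (Fin (N + 1) × Fin (n + 1)) × Fin r → ℤ) : (RatFunc k)[X] :=
  C (algebraMap k[X] (RatFunc k) (poly B fun q => v ((0, q.1), q.2))) *
    ∏ i : Fin N, (X - C (algebraMap k[X] (RatFunc k) (poly B fun q => v ((i.succ, q.1), q.2))))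

/-- The polynomial `δ (x - g 0 (t)) (x - g 1 (t)) ... (x - g N (t))` in `x` over `k(t)`. -/
noncomputable def monic {N n : ℕ} (v : (Fin (N + 1) × Fin (n + 1)) × Fin r → ℤ) (δ : k) : (RatFunc k)[X] :=
  C (algebraMap k[X] (RatFunc k) (C δ)) *
    ∏ i : Fin (N + 1), (X - C (algebraMap k[X] (RatFunc k) (poly B fun q => v ((i, q.1), q.2))))

/-- The polynomial `D(t) G(x)` in `x` over `k(t)`, where the coordinates of the coefficients of `D` are
the `v (j, b)`. -/
noncomputable def twist {n : ℕ} (v : Fin (n + 1) × Fin r → ℤ) (G : (RatFunc k)[X]) : (RatFunc k)[X] :=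
  C (algebraMap k[X] (RatFunc k) (poly B v)) * G

/-- The Selmer group conjecture at `ℓ` for the Jacobian of `y ^ ℓ = f(x)` over `k(t)`: the Tate-Shafarevich group has no
`ℓ`-torsion, and its `ℓ`-adic Tate module is trivial. -/
def Selmer (ℓ : ℕ) (f : (RatFunc k)[X]) : Prop :=
  Y713.Jac.ShaPrimaryTrivial ℓ f k[X] ∧ Y713.Jac.ShaTateTrivial ℓ f k[X]

end

/-- **The Selmer group conjecture along sparse families of vectors of residues.** (1) The exceptions are rare in three
families of superelliptic curves. (2) Examples of families of vectors: short linear recurrences. (3) Examples of families: the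
first powers of fixed integers, modulo all but `C X ^ ε` of the primes `m ≤ X`. -/
theorem result :
    (∀ (k : Type) [Field k] [NumberField k] (r : ℕ) (B : Module.Basis (Fin r) ℤ (𝓞 k)) (ℓ : ℕ), ℓ.Prime →
      ∀ ζ : k, IsPrimitiveRoot ζ ℓ → ∀ β : ℝ, 0 < β →
      (∀ N n : ℕ, ¬ ℓ ∣ N → 4 ≤ n →
        Rare β fun v : (Fin (N + 1) × Fin (n + 1)) × Fin r → ℤ => ¬ Selmer ℓ (curve B v)) ∧
      (∀ N n : ℕ, 2 ≤ N → ¬ ℓ ∣ N + 1 → 4 ≤ n →
        Rare β fun v : (Fin (N + 1) × Fin (n + 1)) × Fin r → ℤ => ¬ ∀ δ : k, δ ≠ 0 → Selmer ℓ (monic B v δ)) ∧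
      (∀ G : (RatFunc k)[X], G.Splits → G.Separable → ¬ ℓ ∣ G.natDegree → ∀ n : ℕ, 2 ≤ n → (n = 2 → ℓ ≠ 2) →
        Rare β fun v : Fin (n + 1) × Fin r → ℤ => ¬ Selmer ℓ (twist B v G))) ∧
    (∀ (k : ℕ) (ε : ℝ), 0 < ε → ∃ β : ℝ, 0 < β ∧ ∃ m₀ : ℕ, ∀ (m : ℕ) [Fact m.Prime], m₀ ≤ m →
      ∀ (ι : Type) [Fintype ι] (c : ι → Fin k → ZMod m) (g : Fin k → (ZMod m)ˣ) (N : ℕ), LinearIndependent (ZMod m) c →
      (∀ i, (m : ℝ) ^ ε ≤ orderOf (g i)) → (∀ i j, i ≠ j → (m : ℝ) ^ ε ≤ orderOf (g i / g j)) → (m : ℝ) ^ ε ≤ N →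
      Flat m ((m : ℝ) ^ (-β)) (Finset.range N) (fun n j => ∑ i, c j i * (g i : ZMod m) ^ n)) ∧
    (∀ (ι : Type) [Fintype ι] (ε : ℝ), 0 < ε → ∃ β : ℝ, 0 < β ∧ ∀ b : ι → ℕ, (∀ j, 2 ≤ b j) → Function.Injective b →
      ∃ C : ℝ, ∀ X : ℕ, 1 ≤ X → ∀ Q : Finset ℕ,
      (∀ m ∈ Q, m ≤ X ∧ ∃ _ : Fact m.Prime, ¬ ∀ N : ℕ, (m : ℝ) ^ ε ≤ N → ∀ x : ι → ZMod m, (∀ j, x j ≠ 0) →
        Flat m ((m : ℝ) ^ (-β)) (Finset.range N) (fun n j => x j * (b j : ZMod m) ^ n)) →
      (Q.card : ℝ) ≤ C * (X : ℝ) ^ ε) := by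
  refine ⟨fun k _ _ r B ℓ hℓ ζ hζ β hβ => ⟨fun N n hN hn => ?_, fun N n hN2 hN hn => ?_,
    fun G hG1 hG2 hG3 n hn hn2 => ?_⟩, fun k ε hε => Pool.Agent.Run7.h823.WF.flat_rec' k hε,
    fun ι _ ε hε => Pool.Agent.Run7.h823.WF.flat_pow' ι hε⟩
  · have h : Run7.h795.RV.Rare β _ := (Run7.h795.RV.Sel.curves_rare B hβ hℓ hζ (n := n) hN hn).mono
      (Q' := fun v => ¬ Selmer ℓ (curve B v)) fun v hv hs => hv ⟨hs, Y713.Jac.ShaPrimaryTrivial.tate hs⟩
    exact h
  · have h : Run7.h795.RV.Rare β _ := (Run7.h795.RV.Sel.monic_rare B hβ hℓ hζ (n := n) hN2 hN hn).mono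
      (Q' := fun v => ¬ ∀ δ : k, δ ≠ 0 → Selmer ℓ (monic B v δ)) fun v hv hs => hv fun δ hδ =>
        ⟨hs δ hδ, Y713.Jac.ShaPrimaryTrivial.tate (hs δ hδ)⟩
    exact h
  · have h : Run7.h795.RV.Rare β _ := (Run7.h795.RV.Sel.twists_rare B hβ hℓ hζ hG1 hG2 hG3 hn hn2).mono
      (Q' := fun v => ¬ Selmer ℓ (twist B v G)) fun v hv hs => hv ⟨hs, Y713.Jac.ShaPrimaryTrivial.tate hs⟩
    exact h

end Pool.Agent.Results.MP_1bdb59_nt.ResidueVectors
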