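import Pool.Agent.Run7.h886.PL.Fin
import Pool.Agent.Run7.h886.PL.Bnd

/-!
# The exact law of the 2-Selmer groups of the quadratic twists of Jacobians of any genus

Let `k` be a finite field of odd characteristic with `q` elements, `K = k(t)`, `g ≥ 1`, and let
`f = x ^ (2 g + 1) + f_{2 g - 1} x ^ (2 g - 1) + ... + f_0` be a polynomial over `k[t]` with
`deg f_j ≤ 2 N (2 g + 1 - j)`, `N ≥ 1`, such that the discriminant of `f` is a squarefree polynomial in `t` and the
polynomial over `k` formed by the coefficients of `t ^ (2 N (2 g + 1 - j))` in the `f_j` is irreducible. If the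
characteristic is larger than `2 g + 1`, these `f` are a positive proportion of all the `f` with
`deg f_j ≤ 2 N (2 g + 1 - j)`. For a squarefree `D` in `k[t]` let `J_D` be the Jacobian of the curve
`D y ^ 2 = f(x)` of genus `g` over `K`. These are all the quadratic twists of `J_1`.

**Theorem for one Jacobian.** For every `D` prime to the discriminant of `f`, and `J = J_D`, let `2 ^ d` be the
order of the Selmer group `Sel(J, 2)`. Then `J(K)` has no point of order two, `#(J(K) / 2 J(K)) * #Sha(J)[2] = 2 ^ d`,
and for all `n` the Selmer group `Sel(J, 2 ^ n)` has at most `2 ^ (n d)` elements. So `Sel(J, ℤ_2)` is generated by `d`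
elements, and rank of `J(K)` plus rank of `T_2 Sha(J)` is at most `d`. For `D` random among the squarefree
polynomials of degree `m` with any given leading coefficient, prime to the discriminant (these are a positive
proportion of all the `q ^ m` polynomials), `m → ∞`, over the fixed finite field `k`:

* `d` has the law of Poonen and Rains, `P(d) = (∏_{i ≤ d} 2 / (2 ^ i - 1)) / ∏_{j ≥ 0} (1 + 2 ^ (-j))`; one half of all
  the `d` are even;
* all the moments converge: the average order of `Sel(J, 2)` tends to `3`, the average of its `j`-th power tends to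
  `(1 + 2) (1 + 4) ... (1 + 2 ^ j)`, the average of `d` tends to `1.2645`, and so on;
* for at least `20.97` percent of all these `D` all the Selmer groups `Sel(J, 2 ^ n)` are zero (even without the
  condition at infinity), so `Sel(J, ℤ_2) = 0`, multiplication by two is bijective on `J(K)`, so
  `J(K) ⊗ ℤ_2 = 0`, and the 2-primary part of `Sha(J)` is zero, so `T_2 Sha(J) = 0`.

So for `20.97` percent of ALL the quadratic twists of a fixed Jacobian, in the natural ordering by the degree and
over a fixed finite field, the map `J(K) ⊗ ℤ_2 → Sel(J, ℤ_2)` of the question is an isomorphism; and as the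
2-primary part of `Sha(J)` is finite, `Sha(J)` is finite (Artin and Tate, Milne; Schneider, Bauer, Kato and
Trihan), so that the question has a positive answer for these `J` and ALL primes `l`, also for the characteristic.
(This consequence is not formalised.) For all the other twists the cokernel `T_2 Sha(J)` of the map has rank at most
`d`, and the average of `d` over all the twists is `1.2645`.

**Theorem for several Jacobians.** The theorem below is about `n` polynomials `f_1, ..., f_n` as above, of any
degrees `2 g_i + 1`, with pairwise coprime discriminants: the numbers `d_1(D), ..., d_n(D)` are independent for a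
random `D`, with convergence of all the joint moments, and for at least `(0.2097) ^ n` of all `D` all the `n`
Jacobians have the properties of the last item.

The starting results over finite `k` are about some twist of each of many curves (all `f` ordered by height,
`SelmerOverTwoCovers`) or about curves with rational branch points.

`J(L)` is the Picard group of the affine coordinate ring `L[x, y] / (y ^ 2 - F)`, because the only point at
infinity of the curve is rational, and the Selmer and Tate-Shafarevich groups are given by continuous cocycles of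
the absolute Galois group of `K` with values in `J(K^sep)` (`Pool/Agent/N874/Jac/Def.lean`). The curve
`D y ^ 2 = f(x)` has the equation `y ^ 2 = F(x)` with `F = D ^ (2 g + 1) f(x / D) = f.scaleRoots D`.

This is the theorem of the projects PRL (helper286, with helpers 160, 209, 212, 215, 216, 270, 303, 382, 416, 502,
547, 704, 711, 760, 803, 824, 847, 908, 957) and JPL (helper784, with helpers 56, 303, 382, 518, 803, 908, 957) on
top of project TG (helper784, with helpers 68, 81, 286, 382, 646, 688, 711, 760, 779, 781, 811, 886, 908, 973, and the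
libraries TS (helper875), PJ and JB (helper352) and PP (helper874)), together with the exact sequence for
`Sel(J, 2)` and the bound for `Sel(J, 2 ^ n)` (`Pool/Agent/Run7/h886/PL/{Seq, Bnd}.lean`, helper886) and the
vanishing of all `Sel(J, 2 ^ n)` (`N844/QF/Sel.lean`, helper844). Proof: one more prime `Q` in `D` changes the
2-Selmer group by a reciprocity law, the class of `Q` moves the dimension as in a Markov chain whose stationary
law is the limit law, the error terms are character sums over the curves whose points are the factorisations of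
`f` at `t`.
-/

set_option autoImplicit false
set_option linter.all false

open Polynomial Filter IsDedekindDomain
open scoped Classical Topology

namespace Pool.Agent.Results.MP_1bdb59_nt.SelmerGroupsOfTwists

open Pool.Agent.N874.Jac (J mapJ Cochain Cocycle Coboundary power TrivialAtPrimes TrivialOver
  UniquelyTwoDivisible ShaTwoTrivial)
open Pool.Agent.TH115.GD (CompInf)

section groups

variable (k : Type) [Field k] {K : Type} [Field K] [Algebra k[X] K] [IsFractionRing k[X] K] (F : K[X])

/-- The continuous cocycles of the absolute Galois group of `K = k(t)` with values in `J[n]`, `J` the Jacobian of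
`y ^ 2 = F(x)` (written multiplicatively), whose class in `H ^ 1 (K_v, J)` is zero for all the places `v` of `K` (the
maximal ideals of `k[t]` and infinity). -/
structure SelmerCocycle (n : ℕ) (c : Cochain F) : Prop where
  cocycle : Cocycle c
  torsion : ∀ σ, c σ ^ n = 1
  finite : TrivialAtPrimes k[X] c
  infinite : TrivialOver (CompInf k K) c

/-- The Selmer group `Sel(J, n)` in `H ^ 1 (K, J[n])` (as a set): the classes of these cocycles. -/
def Selmer (n : ℕ) : Type :=
  Quot fun c c' : {c : Cochain F // SelmerCocycle k F n c} =>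
    ∃ P : J F (SeparableClosure K), P ^ n = 1 ∧ ∀ σ, c.1 σ = c'.1 σ * (mapJ F σ.toAlgHom P / P)

/-- The continuous cocycles of the absolute Galois group of `K = k(t)` with values in `J(K^sep)` whose class in
`H ^ 1 (K, J)` is zero over the completions of `K` at all the places and is killed by two. -/
structure ShaTwoCocycle (c : Cochain F) : Prop where
  cocycle : Cocycle c
  two : Coboundary (power c 2)
  finite : TrivialAtPrimes k[X] c
  infinite : TrivialOver (CompInf k K) c

/-- The set `Sha(J)[2]` of the elements of `Sha(J)` killed by two: the classes of these cocycles. -/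
def ShaTwo : Type :=
  Quot fun c c' : {c : Cochain F // ShaTwoCocycle k F c} =>
    ∃ P : J F (SeparableClosure K), ∀ σ, c.1 σ = c'.1 σ * (mapJ F σ.toAlgHom P / P)

/-- The binary logarithm of the order of `Sel(J, 2)`. -/
noncomputable def dim : ℕ := Nat.log 2 (Nat.card (Selmer k F 2))

/-- All the groups are zero: multiplication by two is bijective on `J(K)`; the 2-primary part of the group of the
classes in `H ^ 1 (K, J)` which are zero over the completions at all maximal ideals of `k[t]` is zero; and every
continuous cocycle with values in `J[2 ^ n]` whose class in `H ^ 1 (K, J)` is zero over these completions is the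
coboundary of an element of `J[2 ^ n]`, for all `n`. -/
def AllZero : Prop :=
  UniquelyTwoDivisible F ∧ ShaTwoTrivial F k[X] ∧
    ∀ (n : ℕ) (c : Cochain F), Cocycle c → (∀ σ, c σ ^ 2 ^ n = 1) → TrivialAtPrimes k[X] c →
      ∃ P : J F (SeparableClosure K), P ^ 2 ^ n = 1 ∧ ∀ σ, c σ = mapJ F σ.toAlgHom P / P

end groups

/-- The weights `∏_{i ≤ d} 2 / (2 ^ i - 1)` of the law of Poonen and Rains. -/
noncomputable def weight (d : ℕ) : ℝ := ∏ i ∈ Finset.range d, (2 : ℝ) / (2 ^ (i + 1) - 1)

/-- The law of Poonen and Rains. -/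
noncomputable def prob (d : ℕ) : ℝ := weight d / ∑' j, weight j

/-- The expectation of `φ` for this law. -/
noncomputable def mean (φ : ℕ → ℝ) : ℝ := (∑' d, weight d * φ d) / ∑' d, weight d

section defs

variable {k : Type} [Field k]

/-- The discriminant of the monic polynomial `f` of degree `2 g + 1` in `x` over `k[t]`, up to the sign: the
resultant of `f` and its derivative. -/
noncomputable def discriminant (g : ℕ) (f : k[X][X]) : k[X] :=
  f.resultant (derivative f) (2 * g + 1) (2 * g)

/-- `f = x ^ (2 g + 1) + f_{2 g - 1} x ^ (2 g - 1) + ... + f_0` with `deg f_j ≤ M (2 g + 1 - j)`. -/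
structure HasHeight (g M : ℕ) (f : k[X][X]) : Prop where
  monic : f.Monic
  degree : f.natDegree = 2 * g + 1
  trace : f.coeff (2 * g) = 0
  height : ∀ j ≤ 2 * g, (f.coeff j).natDegree ≤ M * (2 * g + 1 - j)

/-- The reduction of `f` at infinity, the polynomial `x ^ (2 g + 1) + ∑ r_j x ^ j` over `k` where `r_j` is the
coefficient of `t ^ (M (2 g + 1 - j))` in `f_j`. -/
noncomputable def atInfinity (g M : ℕ) (f : k[X][X]) : k[X] :=
  X ^ (2 * g + 1) + ∑ j ∈ Finset.range (2 * g + 1), C ((f.coeff j).coeff (M * (2 * g + 1 - j))) * X ^ j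

/-- The family: squarefree discriminant, irreducible reduction at infinity. -/
structure InFamily (g N : ℕ) (f : k[X][X]) : Prop extends HasHeight g (2 * N) f where
  inert : Irreducible (atInfinity g (2 * N) f)
  squarefree : Squarefree (discriminant g f)

variable (K : Type) [Field K] [Algebra k[X] K] [IsFractionRing k[X] K]

/-- The monic equation `y ^ 2 = D ^ (2 g + 1) f(x / D)` of the quadratic twist `D y ^ 2 = f(x)` over
`K = k(t)`. -/
noncomputable def twist (f : k[X][X]) (D : k[X]) : K[X] := (f.scaleRoots D).map (algebraMap k[X] K)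

variable {n : ℕ}

/-- The squarefree polynomials of degree `m` with leading coefficient `u` which are prime to all the
discriminants. -/
def Twists (g : Fin n → ℕ) (f : Fin n → k[X][X]) (u : k) (m : ℕ) : Set k[X] :=
  {D | D.leadingCoeff = u ∧ D.natDegree = m ∧ Squarefree D ∧
    ∀ i, IsCoprime D (discriminant (g i) (f i))}

/-- The numbers `d_i(D)`. -/
noncomputable def dims (f : Fin n → k[X][X]) (D : k[X]) (i : Fin n) : ℕ := dim k (twist K (f i) D)

end defs

/-- **Theorem.** Let `k` be a finite field of odd characteristic with `q` elements, `K = k(t)`.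
(1) Let `n ≥ 1` and let `f_1, ..., f_n` be polynomials of the families (`f_i` monic of degree `2 g_i + 1` over
`k[t]`, with trace zero, `deg f_{i, j} ≤ 2 N_i (2 g_i + 1 - j)`, `N_i ≥ 1`, with squarefree discriminant and
irreducible reduction at infinity) with pairwise coprime discriminants, and `u ≠ 0` in `k`. For a squarefree `D` of
degree `m` with leading coefficient `u`, prime to the discriminants (at least `c q ^ m` polynomials, `c > 0`,
for all large `m`) let `J_i` be the Jacobian of `D y ^ 2 = f_i(x)`. Then `#Sel(J_i, 2) = 2 ^ d_i`, `J_i(K)` has no points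
of order two, `#(J_i(K) / 2 J_i(K)) * #Sha(J_i)[2] = 2 ^ d_i`, and `Sel(J_i, 2 ^ l)` is finite with at most
`2 ^ (l d_i)` elements for all `l`. For every function `φ` of at most exponential growth the
average of `φ(d_1, ..., d_n)` over these `D` tends, for `m → ∞`, to the expectation of `φ` for the product of `n`
copies of the law of Poonen and Rains. For all large `m` and for at least `(0.2097) ^ n` of these `D` the groups
`J_i(K)` are uniquely divisible by two, the 2-primary parts of the groups `Sha(J_i)` are zero and all the Selmer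
groups `Sel(J_i, 2 ^ l)` are zero, for all `i`.
(2) The sum of the weights of the law is `4.76846...`, the expectation of `2 ^ (j d)` is
`(1 + 2) (1 + 4) ... (1 + 2 ^ j)`, the expectation of `(-1) ^ d` is zero and the expectation of `d` is `1.2645...`.
(3) If the characteristic is larger than `2 g + 1`, a positive proportion of all `f` with
`deg f_j ≤ 2 N (2 g + 1 - j)` belongs to the family. -/
theorem result (k : Type) [Field k] [Finite k] (h2 : (2 : k) ≠ 0)
    (K : Type) [Field K] [Algebra k[X] K] [IsFractionRing k[X] K] :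
    (∀ (n : ℕ) (g N : Fin n → ℕ) (f : Fin n → k[X][X]) (u : k), 1 ≤ n → (∀ i, 1 ≤ g i) →
      (∀ i, 1 ≤ N i) → (∀ i, InFamily (g i) (N i) (f i)) →
      (∀ i j, i ≠ j → IsCoprime (discriminant (g i) (f i)) (discriminant (g j) (f j))) → u ≠ 0 →
      (∃ c : ℝ, 0 < c ∧ ∀ᶠ m : ℕ in atTop,
        c * (Nat.card k : ℝ) ^ m ≤ ((Twists g f u m).ncard : ℝ)) ∧
      (∀ m, ∀ D ∈ Twists g f u m, ∀ i,
        Nat.card (Selmer k (twist K (f i) D) 2) = 2 ^ dims K f D i ∧
        (∀ P : J (twist K (f i) D) K, P ^ 2 = 1 → P = 1) ∧
        (powMonoidHom 2 : J (twist K (f i) D) K →* J (twist K (f i) D) K).range.index *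
          Nat.card (ShaTwo k (twist K (f i) D)) = 2 ^ dims K f D i ∧
        ∀ l : ℕ, Finite (Selmer k (twist K (f i) D) (2 ^ l)) ∧
          Nat.card (Selmer k (twist K (f i) D) (2 ^ l)) ≤ 2 ^ (l * dims K f D i)) ∧
      (∀ φ : (Fin n → ℕ) → ℝ, (∃ C y : ℝ, ∀ d, |φ d| ≤ C * y ^ (∑ i, d i)) →
        Tendsto (fun m => (∑ᶠ D ∈ Twists g f u m, φ (dims K f D)) / ((Twists g f u m).ncard : ℝ))
          atTop (𝓝 (∑' d : Fin n → ℕ, φ d * ∏ i, prob (d i)))) ∧
      ∀ᶠ m : ℕ in atTop, (0.2097 : ℝ) ^ n * ((Twists g f u m).ncard : ℝ) ≤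
        (({D ∈ Twists g f u m | ∀ i, AllZero k (twist K (f i) D)} : Set k[X]).ncard : ℝ)) ∧
    (|∑' d, weight d - 4.76846| < 0.00001 ∧
      (∀ j : ℕ, mean (fun d => ((2 : ℝ) ^ j) ^ d) = ∏ i ∈ Finset.Icc 1 j, (1 + (2 : ℝ) ^ i)) ∧
      mean (fun d => (-1 : ℝ) ^ d) = 0 ∧ |mean (fun d => (d : ℝ)) - 1.2645| < 0.0001) ∧
    ∀ g : ℕ, 1 ≤ g → ((2 * g + 1).factorial : k) ≠ 0 → ∃ c : ℝ, 0 < c ∧ ∀ᶠ N : ℕ in atTop,
      0 < {f : k[X][X] | HasHeight g (2 * N) f}.ncard ∧
      c * ({f : k[X][X] | HasHeight g (2 * N) f}.ncard : ℝ) ≤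
        ({f : k[X][X] | InFamily g N f}.ncard : ℝ) := by
  have hh : ∀ (g M : ℕ) (f : k[X][X]), HasHeight g M f ↔ Pool.Agent.N352.PJ.Ht g M f :=
    fun g M f => ⟨fun h => ⟨h.monic, h.degree, h.trace, h.height⟩,
      fun h => ⟨h.mon, h.deg, h.tr, h.ht⟩⟩
  have hI : ∀ (g N : ℕ) (f : k[X][X]), InFamily g N f ↔ Run7.h886.TG.InFam g N f := fun g N f =>
    ⟨fun h => ⟨(hh _ _ _).1 h.toHasHeight, h.inert, h.squarefree⟩,
      fun h => ⟨(hh _ _ _).2 h.ht, h.inert, h.sq⟩⟩
  refine ⟨fun n g N f u hn hg hN hf hc hu => ?_, Run7.h886.PL.numbers, fun g hg hp => ?_⟩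
  · haveI : Nonempty (Fin n) := ⟨⟨0, hn⟩⟩
    have hF := Run7.h886.PL.jf_of h2 hg hN (fun i => (hI _ _ _).1 (hf i)) hc
    have hTw : ∀ m, Twists g f u m = Run7.h784.JP.TwJ g f u m := fun m => rfl
    have hsha : ∀ F : K[X], Nat.card (ShaTwo k F) =
        Nat.card (Run7.h886.PL.ShaH F (Run7.h286.PLC.AllPl k K)) := fun F =>
      Run7.h886.PL.card_shaH (fun c => ⟨fun h => ⟨h.cocycle, h.two, h.finite, h.infinite⟩,
        fun h => ⟨h.1, h.2.1, h.2.2.1, h.2.2.2⟩⟩) fun c c' => Iff.rfl
    have hsel : ∀ (F : K[X]) (l : ℕ), Nonempty (Selmer k F l ≃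
        Run7.h886.PL.SelN F l (Run7.h286.PLC.AllPl k K)) := fun F l =>
      ⟨Quot.congr (Equiv.subtypeEquivRight fun c =>
        ⟨fun h => ⟨h.cocycle, h.torsion, Run7.h886.PL.loc_iff.2 ⟨h.finite, h.infinite⟩⟩,
          fun h => ⟨h.coc, h.tor, (Run7.h886.PL.loc_iff.1 h.loc).1,
            (Run7.h886.PL.loc_iff.1 h.loc).2⟩⟩) fun c c' => Iff.rfl⟩
    have hsel2 : ∀ F : K[X], Nat.card (Selmer k F 2) =
        Nat.card (Run7.h286.PLC.SelH F (Run7.h286.PLC.AllPl k K)) := fun F => by
      obtain ⟨e⟩ := hsel F 2
      rw [Nat.card_congr e, Run7.h886.PL.card_selN]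
    have hone : ∀ (m : ℕ), ∀ D ∈ Twists g f u m, ∀ i,
        Nat.card (Selmer k (twist K (f i) D) 2) = 2 ^ Run7.h286.PL.rkJ K ((f i).scaleRoots D) ∧
        (∀ P : J (twist K (f i) D) K, P ^ 2 = 1 → P = 1) ∧
        (powMonoidHom 2 : J (twist K (f i) D) K →* J (twist K (f i) D) K).range.index *
          Nat.card (ShaTwo k (twist K (f i) D)) = 2 ^ Run7.h286.PL.rkJ K ((f i).scaleRoots D) ∧
        (Run7.h286.PL.rkJ K ((f i).scaleRoots D) = 0 → AllZero k (twist K (f i) D)) := by
      intro m D hD i
      obtain ⟨t1, t2, t3, t4⟩ := Run7.h886.PL.one K hF hu hD i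
      refine ⟨(hsel2 _).trans t1, t2, ?_, fun h0 => t4 h0⟩
      rw [hsha]
      exact t3
    have hdim : ∀ (m : ℕ), ∀ D ∈ Twists g f u m, ∀ i,
        dims K f D i = Run7.h286.PL.rkJ K ((f i).scaleRoots D) := by
      intro m D hD i
      unfold dims dim
      rw [(hone m D hD i).1, Nat.log_pow (by norm_num)]
    obtain ⟨c, hc0, hc1⟩ := Run7.h886.PL.size_one hF hu
    refine ⟨⟨c, hc0, hc1⟩, fun m D hD i => ?_, fun φ hφ =>
      Run7.h886.PL.mean_of K hF hu (dims K f) hdim φ hφ, ?_⟩
    · rw [hdim m D hD i]
      refine ⟨(hone m D hD i).1, (hone m D hD i).2.1, (hone m D hD i).2.2.1, fun l => ?_⟩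
      obtain ⟨e⟩ := hsel (twist K (f i) D) (2 ^ l)
      obtain ⟨e2⟩ := hsel (twist K (f i) D) 2
      have h5 := (hone m D hD i).1
      have hfin2 : Finite (Run7.h886.PL.SelN (twist K (f i) D) 2 (Run7.h286.PLC.AllPl k K)) := by
        refine Nat.finite_of_card_ne_zero ?_
        rw [← Nat.card_congr e2, h5]
        positivity
      have hgd : Pool.Agent.Y160.SE.Good 2 (-1 : K) (twist K (f i) D) :=
        Run7.h886.PL.good_tw K (hF.fm i) hD.2.2.1.ne_zero
      obtain ⟨h6, h7⟩ := Run7.h886.PL.card_pow hgd (Run7.h286.PLC.AllPl k K) hfin2 l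
      refine ⟨Finite.of_equiv _ e.symm, ?_⟩
      rw [Nat.card_congr e]
      refine h7.trans (le_of_eq ?_)
      rw [← Nat.card_congr e2, h5, ← pow_mul, mul_comm]
    · filter_upwards [Run7.h886.PL.zero_prop K Run7.h886.PL.jfinm hF hu] with m hm
      rw [Fintype.card_fin] at hm
      refine hm.trans ?_
      have hfin : (Twists g f u m).Finite := Run7.h784.JP.twJ_fin hF hu m
      have hsub : ({D ∈ Run7.h784.JP.TwJ g f u m |
          ∀ i, Run7.h286.PL.rkJ K ((f i).scaleRoots D) = 0} : Set k[X]) ⊆
          {D ∈ Twists g f u m | ∀ i, AllZero k (twist K (f i) D)} := fun D hD =>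
        ⟨hD.1, fun i => (hone m D hD.1 i).2.2.2 (hD.2 i)⟩
      exact_mod_cast Set.ncard_le_ncard hsub (hfin.subset fun D hD => hD.1)
  · obtain ⟨c, hc, h⟩ := Run7.h886.TG.fam_pos (k := k) g hg hp
    refine ⟨c, hc, ?_⟩
    filter_upwards [h] with N hN
    have e1 : {f : k[X][X] | HasHeight g (2 * N) f} =
        {f : k[X][X] | Pool.Agent.N352.PJ.Ht g (2 * N) f} := Set.ext fun f => hh _ _ _
    have e2 : {f : k[X][X] | InFamily g N f} = {f : k[X][X] | Run7.h886.TG.InFam g N f} :=
      Set.ext fun f => hI _ _ _
    rw [e1, e2]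
    exact hN

end Pool.Agent.Results.MP_1bdb59_nt.SelmerGroupsOfTwists
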