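import Pool.Agent.Run7.h23.Ff.Final
import Pool.Agent.N874.JM.Gnu
import Pool.Agent.N874.Jac.Def
import Pool.Agent.N844.QF.Sel

/-!
# The Selmer groups of all inert quadratic twists over all split Galois 2-covers, at the same time

Let `g ≥ 1`, let `k` be a finite field of characteristic larger than `2 g + 1`, `K = k(t)`, and let
`M₀ / K` be any finite Galois extension. We order ALL the hyperelliptic curves `y ^ 2 = f(x)` with `f` monic of
degree `2 g + 1` over `k[t]`, with trace zero and minimal, by height.

Theorem. For every finite set `T` of primes of `k[t]` there are a finite set `S` of primes of `k[t]`, not in `T` and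
completely split in `M₀`, and a positive proportion of all these `f` which are irreducible over `K`, modulo
all `P ∈ T` and modulo all the primes which are ramified in `M₀`, such that for EVERY finite Galois extension
`M = k'(C)` of `K` of 2-power degree in which the primes in `S` split completely and in which only such primes are
ramified modulo which `f` is irreducible, and for EVERY `D ≠ 0` in `k[t]` such that `f` is irreducible
modulo all prime divisors of `D`, the Jacobian `J` of the curve `X : D y ^ 2 = f(x)` over `M` has the properties: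

* all the Selmer groups `Sel(J, 2 ^ m)` over `M` are zero, even without conditions at the places over
  infinity, so `Sel(J, ℤ_2) = 0`;
* multiplication by two is bijective on `J(M)`, so `J(M) ⊗ ℤ_2 = 0`;
* the 2-primary part of the Tate-Shafarevich group of `J` over `M` is zero.

So for a positive proportion of the `f` the map `J(M) ⊗ ℤ_2 → Sel(J, ℤ_2)` of the question is an isomorphism for all
the curves `X = X(D, M)` at the same time; and `Sha(J)` is finite (Artin and Tate, Milne; Kato and Trihan), so that
the question has a positive answer for these `X` and ALL primes `l`, also for the characteristic. (This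
consequence is not formalized.) The set of the curves does not depend on `M` and `D`, and for each `f` there are
infinitely many `M` (of unbounded degree and genus, closed under composita) and `D` (the twists may be non-squares
modulo the primes in `S`).

The starting theorem of this page, `SelmerOverTwoCovers` (helper844, after helper874), is the case `M = M₀`, `D = 1`,
where the set of the curves depends on `M`. The theorem on `J(M)` and the Tate-Shafarevich group is
`MP_7f58ab_ag.TwistsAndCoversAtOnce` (helper23; there for Brauer groups of surfaces, with remarks on the proof),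
after projects JM and TW of helper874, PJ and JB of helper352, with parts by helpers 2, 27, 50, 55, 87, 106, 123,
134, 160, 169, 195, 227, 232, 262, 270, 301, 401, 402, 415, 424, 427, 434, 490, 498, 507, 530, 539, 568, 572, 588,
603, 615, 622, 655, 697, 704, 738, 765, 769, 787, 814. The step to the Selmer groups is `N844/QF/Sel.lean`
(helper844).
-/

set_option autoImplicit false
set_option linter.all false

namespace Pool.Agent.Results.MP_1bdb59_nt.SelmerTwistsAndCovers

open Polynomial Filter IsDedekindDomain
open Pool.Agent.N874.Jac (J mapJ Cochain Cocycle TrivialAtPrimes UniquelyTwoDivisible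
  ShaTwoTrivial)
open scoped Classical

/-- `y ^ 2 = f(x)` is a minimal equation of a curve of genus `g` over `K = k(t)` with a rational Weierstrass
point, of height at most `N`. -/
structure IsCurve {k : Type} [Field k] (K : Type) [Field K] [Algebra k[X] K] (g N : ℕ)
    (f : k[X][X]) : Prop where
  monic : f.Monic
  degree : f.natDegree = 2 * g + 1
  trace : f.coeff (2 * g) = 0
  height : ∀ j ≤ 2 * g, (f.coeff j).natDegree ≤ N * (2 * g + 1 - j)
  smooth : (f.map (algebraMap k[X] K)).Separable
  minimal : ∀ P : k[X], Irreducible P →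
    ¬ ∀ j < 2 * g + 1, P ^ (2 * (2 * g + 1 - j)) ∣ f.coeff j

/-- The curves of genus `g` and height at most `N`. -/
def Curves (k : Type) [Field k] (K : Type) [Field K] [Algebra k[X] K] (g N : ℕ) : Set k[X][X] :=
  {f | IsCurve K g N f}

/-- The Selmer groups `Sel(J, 2 ^ m)` of the Jacobian `J` of `y ^ 2 = F(x)` over `M` are zero, even without
conditions at the places which do not belong to `R`: for all `m`, every continuous cocycle with values in
`J[2 ^ m]` whose class in `H ^ 1 (M, J)` is zero over the completions of `M` at all maximal ideals of `R` is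
the coboundary of an element of `J[2 ^ m]` (`J` is written multiplicatively). -/
def SelmerZero (R : Type) {M : Type} [Field M] [CommRing R] [IsDedekindDomain R] [Algebra R M]
    [IsFractionRing R M] (F : M[X]) : Prop :=
  ∀ (m : ℕ) (c : Cochain F), Cocycle c → (∀ σ, c σ ^ 2 ^ m = 1) → TrivialAtPrimes R c →
    ∃ P : J F (SeparableClosure M), P ^ 2 ^ m = 1 ∧ ∀ σ, c σ = mapJ F σ.toAlgHom P / P

/-- All the Selmer groups `Sel(J, 2 ^ m)` of the Jacobian `J` of `y ^ 2 = F(x)` over `M` are zero,
multiplication by two is bijective on `J(M)`, and every class of 2-power order in `H ^ 1 (M, J)` which is zero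
over the completions of `M` at all maximal ideals of `R` is zero. -/
def NoTwoPart (R : Type) {M : Type} [Field M] [CommRing R] [IsDedekindDomain R] [Algebra R M]
    [IsFractionRing R M] (F : M[X]) : Prop :=
  SelmerZero R F ∧ UniquelyTwoDivisible F ∧ ShaTwoTrivial F R

/-- `f` is irreducible modulo `P`. -/
def IrreducibleMod {k : Type} [Field k] (f : k[X][X]) (P : k[X]) : Prop :=
  Irreducible (f.map (Ideal.Quotient.mk (Ideal.span {P})))

/-- `P` is unramified in the extension `R` of `k[t]`. -/
def Unramified {k : Type} [Field k] (R : Type) [CommRing R] [Algebra k[X] R] (P : k[X]) : Prop :=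
  ∀ w : HeightOneSpectrum R, algebraMap k[X] R P ∈ w.asIdeal → algebraMap k[X] R P ∉ w.asIdeal ^ 2

/-- `Q` splits completely in the extension `R` of `k[t]`: it is unramified, and every element of `R` is
congruent to a polynomial modulo every prime over `Q`. -/
def SplitsCompletely {k : Type} [Field k] (R : Type) [CommRing R] [Algebra k[X] R] (Q : k[X]) :
    Prop :=
  Unramified R Q ∧ ∀ w : HeightOneSpectrum R, algebraMap k[X] R Q ∈ w.asIdeal →
    ∀ y : R, ∃ c : k[X], y - algebraMap k[X] R c ∈ w.asIdeal

/-- `D ≠ 0`, and `f` is irreducible modulo all prime divisors of `D`. -/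
def Inert {k : Type} [Field k] (f : k[X][X]) (D : k[X]) : Prop :=
  D ≠ 0 ∧ ∀ P : k[X], Irreducible P → P ∣ D → IrreducibleMod f P

/-- The Jacobians of `D y ^ 2 = f(x)` have no 2-part and no Selmer groups at two over all the finite Galois extensions `M` of `K = k(t)`
of 2-power degree in which the primes `Q ∈ S` split completely and in which only primes are ramified
modulo which `f` is irreducible, for all the `D ≠ 0` modulo the prime divisors of which `f` is irreducible.
Here `R` is the integral closure of `k[t]` in `M`. -/
def NoTwoPartUniformly {k : Type} [Field k] (K : Type) [Field K] [Algebra k[X] K]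
    (S : Finset k[X]) (f : k[X][X]) : Prop :=
  ∀ (M : Type) [Field M] [Algebra K M] [Algebra k[X] M] [IsScalarTower k[X] K M]
    [FiniteDimensional K M] [IsGalois K M] (R : Type) [CommRing R] [IsDedekindDomain R]
    [Algebra R M] [IsFractionRing R M] [Algebra k[X] R] [IsScalarTower k[X] R M]
    [IsIntegralClosure R k[X] M] (n : ℕ), Module.finrank K M = 2 ^ n →
    (∀ Q ∈ S, SplitsCompletely R Q) →
    (∀ P : k[X], Irreducible P → Unramified R P ∨ IrreducibleMod f P) →
    ∀ D : k[X], Inert f D → NoTwoPart R ((f.scaleRoots D).map (algebraMap k[X] M))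

/-- The curves of genus `g` and height at most `N` for which `f` is irreducible over `K`, modulo all
`P ∈ T` and modulo all the primes which are ramified in the extension `R₀` of `k[t]`, and for which there is
no 2-part for all the `M` and `D` which belong to `S` and `f`. -/
def AllTrivial (k : Type) [Field k] (K : Type) [Field K] [Algebra k[X] K] (R₀ : Type) [CommRing R₀]
    [Algebra k[X] R₀] (S T : Finset k[X]) (g N : ℕ) : Set k[X][X] :=
  {f ∈ Curves k K g N | Irreducible (f.map (algebraMap k[X] K)) ∧ (∀ P ∈ T, IrreducibleMod f P) ∧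
    (∀ P : k[X], Irreducible P → Unramified R₀ P ∨ IrreducibleMod f P) ∧
    NoTwoPartUniformly K S f}

/-- For every `g ≥ 1`, every finite field `k` of characteristic larger than `2 g + 1`, every finite
Galois extension `M₀` of `K = k(t)` and every finite set `T` of primes of `k[t]` there are a finite set `S` of
primes of `k[t]`, disjoint from `T` and completely split in `M₀`, and a positive constant `c` such that for
all large `N` at least `c` times the number of all the curves `y ^ 2 = f(x)` over `K` of genus `g` and height at
most `N` have `f` irreducible over `K`, modulo all `P ∈ T` and modulo all the primes which are ramified in `M₀`,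
and have the following property: for ALL finite Galois extensions `M` of `K` of 2-power degree in which all
`Q ∈ S` split completely and in which only primes are ramified modulo which `f` is irreducible, and for ALL
`D ≠ 0` such that `f` is irreducible modulo the prime divisors of `D`, all the Selmer groups `Sel(J, 2 ^ m)` over
`M` of the Jacobian `J` of `D y ^ 2 = f(x)` are zero, multiplication by two is bijective on `J(M)`, and the
2-primary part of the Tate-Shafarevich group of `J` over `M` is zero. -/
theorem result (g : ℕ) (hg : 1 ≤ g) (k : Type) [Field k] [Finite k]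
    (hp : ((2 * g + 1).factorial : k) ≠ 0) (K : Type) [Field K] [Algebra k[X] K]
    [IsFractionRing k[X] K] (M₀ : Type) [Field M₀] [Algebra K M₀] [Algebra k[X] M₀]
    [IsScalarTower k[X] K M₀] [FiniteDimensional K M₀] [IsGalois K M₀] (R₀ : Type) [CommRing R₀]
    [IsDedekindDomain R₀] [Algebra R₀ M₀] [IsFractionRing R₀ M₀] [Algebra k[X] R₀]
    [IsScalarTower k[X] R₀ M₀] [IsIntegralClosure R₀ k[X] M₀]
    (T : Finset k[X]) (hT : ∀ P ∈ T, P.Monic ∧ Irreducible P) :
    (∀ N : ℕ, (Curves k K g N).Finite) ∧
    ∃ S : Finset k[X], (∀ Q ∈ S, Q.Monic ∧ Irreducible Q ∧ SplitsCompletely R₀ Q) ∧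
      Disjoint S T ∧
      ∃ c : ℝ, 0 < c ∧ ∀ᶠ N : ℕ in atTop, 0 < (Curves k K g N).ncard ∧
        c * ((Curves k K g N).ncard : ℝ) ≤ ((AllTrivial k K R₀ S T g N).ncard : ℝ) := by
  have hsub : ∀ N, Curves k K g N ⊆ {f : k[X][X] | Pool.Agent.N352.PJ.Ht g N f} :=
    fun N f hf => ⟨hf.monic, hf.degree, hf.trace, hf.height⟩
  have h2 : (2 : k) ≠ 0 := by
    intro h0
    apply hp
    have hd : 2 ∣ (2 * g + 1).factorial := Nat.dvd_factorial (by norm_num) (by omega)
    obtain ⟨e, he⟩ := hd
    rw [he, Nat.cast_mul, Nat.cast_ofNat, h0, zero_mul]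
  have hg2 : (((2 * g + 1 : ℕ)) : K) ≠ 0 := by
    have h3 : ((2 * g + 1 : ℕ) : k) ≠ 0 := by
      intro h0
      apply hp
      obtain ⟨e, he⟩ : (2 * g + 1) ∣ (2 * g + 1).factorial := Nat.dvd_factorial (by omega) le_rfl
      rw [he, Nat.cast_mul, h0, zero_mul]
    have h4 : algebraMap k[X] K (C ((2 * g + 1 : ℕ) : k)) ≠ 0 := by
      rw [Ne, IsFractionRing.to_map_eq_zero_iff, C_eq_zero]
      exact h3
    rwa [map_natCast, map_natCast] at h4
  have hfin : ∀ N, (Curves k K g N).Finite := fun N =>
    (Pool.Agent.N415.PJMAIN.ht_card (k := k) g N).1.subset (hsub N)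
  refine ⟨hfin, ?_⟩
  obtain ⟨S, hS, hdis, hsplit, c, hc, N₀, hN₀⟩ := Run7.h23.Ff.finalD k hg hp K M₀ R₀ T hT
  refine ⟨S, fun Q hQ => ⟨(hS Q hQ).1, (hS Q hQ).2, fun w hw => ?_, fun w hw y => ?_⟩, hdis, c, hc,
    ?_⟩
  · exact (Pool.Agent.N874.TW.val_iff Q w hw).1 (hsplit Q hQ w hw).1
  · obtain ⟨b, hb⟩ := (hsplit Q hQ w hw).2 (Ideal.Quotient.mk _ y)
    exact ⟨b, Ideal.Quotient.eq.1 hb.symm⟩
  filter_upwards [eventually_ge_atTop N₀] with N hN
  obtain ⟨hHt, hle⟩ := hN₀ N hN
  have hsub2 : {f : k[X][X] | Pool.Agent.N352.PJ.Ht g N f ∧ Pool.Agent.N352.PJ.Mini g f ∧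
      (f.map (algebraMap k[X] K)).Separable ∧ Irreducible (f.map (algebraMap k[X] K)) ∧
      (∀ P ∈ T, Irreducible (f.map (Ideal.Quotient.mk (Ideal.span {P})))) ∧
      Pool.Agent.N874.TW.RamIrr f M₀ R₀ ∧
      Run7.h23.Ff.UniD K S f f} ⊆ AllTrivial k K R₀ S T g N := by
    rintro f ⟨a1, a2, a3, a4, a5, a7, a6⟩
    refine ⟨⟨a1.mon, a1.deg, a1.tr, a1.ht, a3, a2⟩, a4, a5, fun P hPi => ?_, ?_⟩
    · by_cases hno : IrreducibleMod f P
      · exact Or.inr hno
      · refine Or.inl fun w hw => ?_
        -- the monic multiple of `P`
        have hne := hPi.ne_zero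
        set P' : k[X] := P * C (P.leadingCoeff)⁻¹ with hP'
        have hPm : P'.Monic := monic_mul_leadingCoeff_inv hne
        have hu : IsUnit (C (P.leadingCoeff)⁻¹ : k[X]) := by
          rw [isUnit_C]
          exact (inv_ne_zero (leadingCoeff_ne_zero.2 hne)).isUnit
        have hass : Associated P P' := ⟨hu.unit, rfl⟩
        have hspan : Ideal.span {P'} = Ideal.span {P} :=
          (Ideal.span_singleton_eq_span_singleton.2 hass).symm
        have hw' : algebraMap k[X] R₀ P' ∈ w.asIdeal := by
          rw [hP', map_mul]
          exact Ideal.mul_mem_right _ _ hw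
        have hval : w.valuation M₀ (algebraMap k[X] M₀ P') = WithZero.exp (-1 : ℤ) := by
          by_contra hne
          apply hno
          have h1 := a7 P' hPm (hass.irreducible hPi) ⟨w, hw', hne⟩
          have key : ∀ I I' : Ideal k[X], I = I' → Irreducible (f.map (Ideal.Quotient.mk I)) →
              Irreducible (f.map (Ideal.Quotient.mk I')) := by
            rintro I _ rfl h
            exact h
          exact key _ _ hspan h1
        have h3 := (Pool.Agent.N874.TW.val_iff P' w hw').1 hval
        intro h4
        apply h3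
        rw [hP', map_mul]
        exact Ideal.mul_mem_right _ _ h4
    intro M _ _ _ _ _ _ R _ _ _ _ _ _ _ n hn hQ hP D hD
    have hsel : Pool.Agent.N874.JM.SelF R ((f.scaleRoots D).map (algebraMap k[X] M)) := by
      refine a6 M R n hn (fun Q hQS w hw => ?_) (fun P hPm hPi hram => ?_) D
        ⟨hD.1, fun P _ hPi hPD => hD.2 P hPi hPD⟩
      · refine ⟨(Pool.Agent.N874.TW.val_iff Q w hw).2 ((hQ Q hQS).1 w hw), fun y => ?_⟩
        obtain ⟨y, rfl⟩ := Ideal.Quotient.mk_surjective y
        obtain ⟨b, hb⟩ := (hQ Q hQS).2 w hw y
        exact ⟨b, (Ideal.Quotient.eq.2 hb).symm⟩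
      · rcases hP P hPi with h | h
        · obtain ⟨w, hw, hne⟩ := hram
          exact absurd ((Pool.Agent.N874.TW.val_iff P w hw).2 (h w hw)) hne
        · exact h
    have hmD : (f.scaleRoots D).Monic := (monic_scaleRoots_iff D).2 a1.mon
    have hdD : (f.scaleRoots D).natDegree = 2 * g + 1 := by
      rw [natDegree_scaleRoots, a1.deg]
    have hDK : algebraMap k[X] K D ≠ 0 := by
      rw [Ne, IsFractionRing.to_map_eq_zero_iff]
      exact hD.1
    have hirr : Irreducible ((f.scaleRoots D).map (algebraMap k[X] K)) := by
      rw [map_scaleRoots _ _ _ (by rw [a1.mon.leadingCoeff, map_one]; exact one_ne_zero)]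
      exact Pool.Agent.N874.TW.irr_scale' hDK a4
    have hsep : ((f.scaleRoots D).map (algebraMap k[X] K)).Separable := by
      rw [separable_iff_derivative_ne_zero hirr]
      intro h0
      have h1 := congrArg (fun p => coeff p (2 * g)) h0
      simp only [coeff_derivative, coeff_zero] at h1
      have h3 : ((f.scaleRoots D).map (algebraMap k[X] K)).coeff (2 * g + 1) = 1 := by
        rw [coeff_map, ← hdD, hmD.coeff_natDegree, map_one]
      rw [h3, one_mul] at h1
      apply hg2
      push_cast at h1 ⊢
      exact h1
    obtain ⟨h4, h5⟩ := Pool.Agent.N874.JM.genuine K M R hn h2 hmD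
      (by rw [hdD]; exact odd_two_mul_add_one g) hsep hirr hsel
    have h2M : (2 : M) ≠ 0 := by
      have h3 : ((algebraMap k[X] M).comp C) 2 ≠ 0 := by
        rw [Ne, map_eq_zero_iff _ ((algebraMap k[X] M).comp C).injective]
        exact h2
      rwa [map_ofNat] at h3
    have hU := Pool.Agent.N874.Jac.div_of _ h4
    have hSh := Pool.Agent.N874.Jac.sha_of _ R h5
    have hsM : ((f.scaleRoots D).map (algebraMap k[X] M)).Separable := by
      have e : (f.scaleRoots D).map (algebraMap k[X] M) =
          ((f.scaleRoots D).map (algebraMap k[X] K)).map (algebraMap K M) := by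
        rw [Polynomial.map_map, ← IsScalarTower.algebraMap_eq]
      rw [e]
      exact hsep.map
    refine ⟨fun m c hc h1 hl => ?_, hU, hSh⟩
    exact Pool.Agent.N844.QF.sel_zero h2M (hmD.map _) hsM
      (by rw [hmD.natDegree_map, hdD]; exact odd_two_mul_add_one g) R hU hSh m c hc h1 hl
  have hfin2 : (AllTrivial k K R₀ S T g N).Finite := (hfin N).subset fun f hf => hf.1
  have h1 := Set.ncard_le_ncard hsub2 hfin2
  have h2 : c * ({f : k[X][X] | Pool.Agent.N352.PJ.Ht g N f}.ncard : ℝ) ≤
      ((AllTrivial k K R₀ S T g N).ncard : ℝ) := hle.trans (by exact_mod_cast h1)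
  have hne : 0 < {f : k[X][X] | Pool.Agent.N352.PJ.Ht g N f}.ncard := by
    rw [Set.ncard_pos hHt]
    refine ⟨X ^ (2 * g + 1), monic_X_pow _, natDegree_X_pow _, ?_, fun j hj => ?_⟩
    · rw [coeff_X_pow, if_neg (by omega)]
    · rw [coeff_X_pow, if_neg (by omega), natDegree_zero]
      exact Nat.zero_le _
  have h3 : 0 < ((AllTrivial k K R₀ S T g N).ncard : ℝ) := by
    refine lt_of_lt_of_le ?_ h2
    exact mul_pos hc (by exact_mod_cast hne)
  refine ⟨?_, ?_⟩
  · have h4 := Set.ncard_le_ncard (s := AllTrivial k K R₀ S T g N) (t := Curves k K g N)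
      (fun f hf => hf.1) (hfin N)
    have h5 : 0 < (AllTrivial k K R₀ S T g N).ncard := by exact_mod_cast h3
    omega
  · refine le_trans ?_ h2
    have h4 := Set.ncard_le_ncard (hsub N) hHt
    exact mul_le_mul_of_nonneg_left (by exact_mod_cast h4) hc.le

end Pool.Agent.Results.MP_1bdb59_nt.SelmerTwistsAndCovers
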